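import Pool.Agent.N623.CS.Stm

/-!
# Project CS (helper623): cuts and nodes (helper395)
-/

set_option autoImplicit false

namespace Pool.Agent.N395.CS

open Pool.Agent.N623.CS

lemma letters (g : RS) (q : ℕ) :
    ∃ p, p ≤ q ∧ (∀ j, j < q → g j < p) ∧ ∀ v, v < p → ∃ i, i < q ∧ g i = v := by
  induction q with
  | zero => exact ⟨0, le_rfl, fun j hj => absurd hj (Nat.not_lt_zero j),
      fun v hv => absurd hv (Nat.not_lt_zero v)⟩
  | succ q ih =>
    obtain ⟨p, hp, h1, h2⟩ := ih
    by_cases h : g q < p
    · refine ⟨p, by omega, fun j hj => ?_, fun v hv => ?_⟩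
      · rcases Nat.lt_succ_iff_lt_or_eq.mp hj with hj | rfl
        · exact h1 j hj
        · exact h
      · obtain ⟨i, hi, hi'⟩ := h2 v hv
        exact ⟨i, by omega, hi'⟩
    · have h3 : g q = p := by
        by_contra h4
        obtain ⟨i, hi, hi'⟩ := g.2.1 q p (by omega)
        have h5 := h1 i hi
        have h6 : g i = p := hi'
        omega
      refine ⟨p + 1, by omega, fun j hj => ?_, fun v hv => ?_⟩
      · rcases Nat.lt_succ_iff_lt_or_eq.mp hj with hj | rfl
        · have := h1 j hj
          omega
        · omega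
      · rcases Nat.lt_succ_iff_lt_or_eq.mp hv with hv | rfl
        · obtain ⟨i, hi, hi'⟩ := h2 v hv
          exact ⟨i, by omega, hi'⟩
        · exact ⟨q, by omega, h3⟩

theorem t_cut : S_CUT := by
  intro g q
  obtain ⟨p, hp, h1, h2⟩ := letters g q
  have hw : IsRS (fun n => if n < q then g n else p + (n - q)) := by
    constructor
    · intro m v hv
      simp only at hv
      by_cases hm : m < q
      · rw [if_pos hm] at hv
        obtain ⟨i, hi, hi'⟩ := g.2.1 m v hv
        refine ⟨i, hi, ?_⟩
        simp only
        rw [if_pos (by omega)]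
        exact hi'
      · rw [if_neg hm] at hv
        by_cases hvp : v < p
        · obtain ⟨i, hi, hi'⟩ := h2 v hvp
          refine ⟨i, by omega, ?_⟩
          simp only
          rw [if_pos hi]
          exact hi'
        · refine ⟨q + (v - p), by omega, ?_⟩
          simp only
          rw [if_neg (by omega)]
          omega
    · intro v
      by_cases hvp : v < p
      · obtain ⟨i, hi, hi'⟩ := h2 v hvp
        refine ⟨i, ?_⟩
        simp only
        rw [if_pos hi]
        exact hi'
      · refine ⟨q + (v - p), ?_⟩
        simp only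
        rw [if_neg (by omega)]
        omega
  refine ⟨p, hp, ⟨_, hw⟩, ⟨fun j hj => ?_, fun i => ?_⟩, fun j hj => ?_⟩
  · show (if j < q then g j else p + (j - q)) < p
    rw [if_pos hj]
    exact h1 j hj
  · show (if q + i < q then g (q + i) else p + (q + i - q)) = p + i
    rw [if_neg (by omega)]
    omega
  · show (if j < q then g j else p + (j - q)) = g j
    rw [if_pos hj]

theorem t_node : S_NODE := by
  intro g p
  classical
  have hex : ∃ m, g m = p := g.2.2 p
  have hm : g (Nat.find hex) = p := Nat.find_spec hex
  have hmin : ∀ j, j < Nat.find hex → g j ≠ p := fun j hj => Nat.find_min hex hj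
  generalize Nat.find hex = m at hm hmin
  obtain ⟨p', -, w, hw, hwg⟩ := t_cut g (m + 1)
  have h1 : p < p' := by
    have h2 := hw.1 m (Nat.lt_succ_self m)
    rwa [hwg m (Nat.lt_succ_self m), hm] at h2
  have h2 : p' = p + 1 := by
    by_contra h3
    have h4 : w (m + 1) = p' := hw.2 0
    obtain ⟨i, hi, hi'⟩ := w.2.1 (m + 1) (p + 1) (by
      show p + 1 < w (m + 1)
      omega)
    have h5 : g i = p + 1 := by
      rw [← hwg i hi]
      exact hi'
    have h6 : i ≠ m := by
      rintro rfl
      omega
    obtain ⟨j, hj, hj'⟩ := g.2.1 i p (by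
      show p < g i
      omega)
    exact hmin j (by omega) hj'
  subst h2
  exact ⟨w, m, hm, hmin, hw, fun j hj => hwg j (by omega)⟩

end Pool.Agent.N395.CS
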